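import Pool.Agent.Helper20.HP.KKDefs

/-!
# P1: naturality of the curvature numerator and O'Neill's formula for one-dimensional fibres
-/

open Filter Metric Module Set
open scoped Topology ContDiff RealInnerProductSpace Manifold

namespace Pool.Agent.Helper88.HP
open Pool.Agent.Helper20.PC Pool.Agent.Helper20.HP

section
variable {F F' : Type*} [NormedAddCommGroup F] [NormedSpace ℝ F]
    [NormedAddCommGroup F'] [NormedSpace ℝ F']

theorem fderiv_tri {M : F → F' →L[ℝ] F' →L[ℝ] ℝ} {X Y : F → F'} {w : F}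
    (hM : DifferentiableAt ℝ M w) (hX : DifferentiableAt ℝ X w) (hY : DifferentiableAt ℝ Y w)
    (t : F) : fderiv ℝ (fun w => M w (X w) (Y w)) w t =
      fderiv ℝ M w t (X w) (Y w) + M w (fderiv ℝ X w t) (Y w) + M w (X w) (fderiv ℝ Y w t) := by
  have h1 := (hM.hasFDerivAt.clm_apply hX.hasFDerivAt).clm_apply hY.hasFDerivAt
  rw [h1.fderiv]
  simp
  ring

theorem fderiv_app {E : Type*} [NormedAddCommGroup E] [NormedSpace ℝ E] {M : F → F →L[ℝ] E} {w : F}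
    (hM : DifferentiableAt ℝ M w) (a t : F) :
    fderiv ℝ (fun w => M w a) w t = fderiv ℝ M w t a := by
  have h1 := hM.hasFDerivAt.clm_apply (hasFDerivAt_const a w)
  rw [h1.fderiv]
  simp

theorem fderiv_app2 {E : Type*} [NormedAddCommGroup E] [NormedSpace ℝ E]
    {M : F → F →L[ℝ] F →L[ℝ] E} {w : F}
    (hM : DifferentiableAt ℝ M w) (a b t : F) :
    fderiv ℝ (fun w => M w a b) w t = fderiv ℝ M w t a b := by
  have h1 := (hM.hasFDerivAt.clm_apply (hasFDerivAt_const a w)).clm_apply (hasFDerivAt_const b w)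
  rw [h1.fderiv]
  simp

variable {E : Type*} [NormedAddCommGroup E] [NormedSpace ℝ E]

theorem comp_clm {H : Type*} [NormedAddCommGroup H] [NormedSpace ℝ H] (ev : E →L[ℝ] H)
    {g : F → E} {x : F} {g' : F →L[ℝ] E} (hg : HasFDerivAt g g' x) :
    HasFDerivAt (fun x => ev (g x)) (ev.comp g') x := by
  have := ContinuousLinearMap.hasFDerivAt (f := ev) (x := g x)
  exact HasFDerivAt.comp x this hg

section
variable (ev : E →L[ℝ] F' →L[ℝ] F' →L[ℝ] ℝ) {g : F' → E} {φ : F → F'}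

theorem comp_ev {g : F → E} {x : F} {g' : F →L[ℝ] E} (hg : HasFDerivAt g g' x) :
    HasFDerivAt (fun x => ev (g x)) (ev.comp g') x :=
  comp_clm (H := F' →L[ℝ] F' →L[ℝ] ℝ) ev hg

/-- derivative of a family of forms, evaluated. -/
theorem ev_fderiv {x : F'} (hg : DifferentiableAt ℝ g x) (t a b : F') :
    fderiv ℝ (fun x => ev (g x) a b) x t = ev (fderiv ℝ g x t) a b := by
  have h0 : HasFDerivAt (fun x => ev (g x)) (ev.comp (fderiv ℝ g x)) x :=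
    comp_ev ev hg.hasFDerivAt
  have h1 := (h0.clm_apply (hasFDerivAt_const a x)).clm_apply (hasFDerivAt_const b x)
  rw [h1.fderiv]
  simp

theorem ev_fderiv2 {x : F'} (hg : ContDiffAt ℝ 2 g x) (s t a b : F') :
    fderiv ℝ (fun x => fderiv ℝ (fun x' => ev (g x') a b) x t) x s =
      ev (fderiv ℝ (fderiv ℝ g) x s t) a b := by
  have h1 : (fun x => fderiv ℝ (fun x' => ev (g x') a b) x t) =ᶠ[𝓝 x]
      fun x => ev (fderiv ℝ g x t) a b := by
    filter_upwards [hg.eventually (by norm_num)] with y hy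
    exact ev_fderiv ev (hy.differentiableAt (by norm_num)) t a b
  have h2 : DifferentiableAt ℝ (fderiv ℝ g) x :=
    (hg.fderiv_right (m := 1) (by norm_num)).differentiableAt (by norm_num)
  have h3 : DifferentiableAt ℝ (fun x => fderiv ℝ g x t) x :=
    h2.clm_apply (differentiableAt_const t)
  rw [h1.fderiv_eq (𝕜 := ℝ), ev_fderiv ev h3, fderiv_app h2]

/-- first derivative of the pulled back form. -/
theorem first {w : F} (hg : DifferentiableAt ℝ g (φ w)) (hφ : DifferentiableAt ℝ φ w)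
    (hφ1 : DifferentiableAt ℝ (fderiv ℝ φ) w) (t a b : F) :
    fderiv ℝ (fun w => ev (g (φ w)) (fderiv ℝ φ w a) (fderiv ℝ φ w b)) w t =
      ev (fderiv ℝ g (φ w) (fderiv ℝ φ w t)) (fderiv ℝ φ w a) (fderiv ℝ φ w b)
      + ev (g (φ w)) (fderiv ℝ (fderiv ℝ φ) w t a) (fderiv ℝ φ w b)
      + ev (g (φ w)) (fderiv ℝ φ w a) (fderiv ℝ (fderiv ℝ φ) w t b) := by
  have h0 : HasFDerivAt (fun w => ev (g (φ w))) (ev.comp ((fderiv ℝ g (φ w)).comp (fderiv ℝ φ w))) w :=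
    comp_ev ev (hg.hasFDerivAt.comp w hφ.hasFDerivAt)
  have h1 := fderiv_tri (M := fun w => ev (g (φ w))) (X := fun w => fderiv ℝ φ w a)
    (Y := fun w => fderiv ℝ φ w b) h0.differentiableAt (hφ1.clm_apply (differentiableAt_const a))
    (hφ1.clm_apply (differentiableAt_const b)) t
  rw [h1, h0.fderiv, fderiv_app hφ1, fderiv_app hφ1]
  rfl

/-- second derivative of the pulled back form. -/
theorem second {z : F} (hg : ContDiffAt ℝ 2 g (φ z)) (hφ : ContDiffAt ℝ 3 φ z) (s t a b : F) :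
    fderiv ℝ (fun w => fderiv ℝ (fun w' => ev (g (φ w')) (fderiv ℝ φ w' a) (fderiv ℝ φ w' b)) w t) z s =
      ev (fderiv ℝ (fderiv ℝ g) (φ z) (fderiv ℝ φ z s) (fderiv ℝ φ z t)) (fderiv ℝ φ z a) (fderiv ℝ φ z b)
      + ev (fderiv ℝ g (φ z) (fderiv ℝ (fderiv ℝ φ) z s t)) (fderiv ℝ φ z a) (fderiv ℝ φ z b)
      + ev (fderiv ℝ g (φ z) (fderiv ℝ φ z t)) (fderiv ℝ (fderiv ℝ φ) z s a) (fderiv ℝ φ z b)
      + ev (fderiv ℝ g (φ z) (fderiv ℝ φ z t)) (fderiv ℝ φ z a) (fderiv ℝ (fderiv ℝ φ) z s b)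
      + ev (fderiv ℝ g (φ z) (fderiv ℝ φ z s)) (fderiv ℝ (fderiv ℝ φ) z t a) (fderiv ℝ φ z b)
      + ev (g (φ z)) (fderiv ℝ (fderiv ℝ (fderiv ℝ φ)) z s t a) (fderiv ℝ φ z b)
      + ev (g (φ z)) (fderiv ℝ (fderiv ℝ φ) z t a) (fderiv ℝ (fderiv ℝ φ) z s b)
      + ev (fderiv ℝ g (φ z) (fderiv ℝ φ z s)) (fderiv ℝ φ z a) (fderiv ℝ (fderiv ℝ φ) z t b)
      + ev (g (φ z)) (fderiv ℝ (fderiv ℝ φ) z s a) (fderiv ℝ (fderiv ℝ φ) z t b)
      + ev (g (φ z)) (fderiv ℝ φ z a) (fderiv ℝ (fderiv ℝ (fderiv ℝ φ)) z s t b) := by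
  have hφ1 : ContDiffAt ℝ 2 (fderiv ℝ φ) z := hφ.fderiv_right (m := 2) (by norm_num)
  have hφ2 : ContDiffAt ℝ 1 (fderiv ℝ (fderiv ℝ φ)) z := hφ1.fderiv_right (m := 1) (by norm_num)
  have hg1 : ContDiffAt ℝ 1 (fderiv ℝ g) (φ z) := hg.fderiv_right (m := 1) (by norm_num)
  have dφ : DifferentiableAt ℝ φ z := hφ.differentiableAt (by norm_num)
  have dφ1 : DifferentiableAt ℝ (fderiv ℝ φ) z := hφ1.differentiableAt (by norm_num)
  have dφ2 : DifferentiableAt ℝ (fderiv ℝ (fderiv ℝ φ)) z := hφ2.differentiableAt (by norm_num)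
  have dg : DifferentiableAt ℝ g (φ z) := hg.differentiableAt (by norm_num)
  have dg1 : DifferentiableAt ℝ (fderiv ℝ g) (φ z) := hg1.differentiableAt (by norm_num)
  have he : (fun w => fderiv ℝ (fun w' => ev (g (φ w')) (fderiv ℝ φ w' a) (fderiv ℝ φ w' b)) w t)
      =ᶠ[𝓝 z] fun w => ev (fderiv ℝ g (φ w) (fderiv ℝ φ w t)) (fderiv ℝ φ w a) (fderiv ℝ φ w b)
      + ev (g (φ w)) (fderiv ℝ (fderiv ℝ φ) w t a) (fderiv ℝ φ w b)
      + ev (g (φ w)) (fderiv ℝ φ w a) (fderiv ℝ (fderiv ℝ φ) w t b) := by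
    have e1 := hφ.eventually (by norm_num)
    have e2 := hφ1.eventually (by norm_num)
    have e3 : ∀ᶠ w in 𝓝 z, ContDiffAt ℝ 2 g (φ w) :=
      hφ.continuousAt.eventually (hg.eventually (by norm_num))
    filter_upwards [e1, e2, e3] with w h1 h2 h3
    exact first ev (h3.differentiableAt (by norm_num)) (h1.differentiableAt (by norm_num))
      (h2.differentiableAt (by norm_num)) t a b
  rw [he.fderiv_eq (𝕜 := ℝ)]
  -- the three terms
  have hN : HasFDerivAt (fun w => fderiv ℝ g (φ w) (fderiv ℝ φ w t))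
      ((fderiv ℝ g (φ z)).comp ((fderiv ℝ (fderiv ℝ φ) z).flip t)
        + ((fderiv ℝ (fderiv ℝ g) (φ z)).comp (fderiv ℝ φ z)).flip (fderiv ℝ φ z t)) z := by
    have h1 : HasFDerivAt (fun w => fderiv ℝ g (φ w))
        ((fderiv ℝ (fderiv ℝ g) (φ z)).comp (fderiv ℝ φ z)) z :=
      dg1.hasFDerivAt.comp z dφ.hasFDerivAt
    have h2 : HasFDerivAt (fun w => fderiv ℝ φ w t) ((fderiv ℝ (fderiv ℝ φ) z).flip t) z := by
      have := dφ1.hasFDerivAt.clm_apply (hasFDerivAt_const t z)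
      refine this.congr_fderiv ?_
      ext s
      simp
    exact h1.clm_apply h2
  have hM1 : HasFDerivAt (fun w => ev (fderiv ℝ g (φ w) (fderiv ℝ φ w t))) _ z :=
    comp_ev ev hN
  have hM2 : HasFDerivAt (fun w => ev (g (φ w))) (ev.comp ((fderiv ℝ g (φ z)).comp (fderiv ℝ φ z))) z :=
    comp_ev ev (dg.hasFDerivAt.comp z dφ.hasFDerivAt)
  have dX : ∀ c, DifferentiableAt ℝ (fun w => fderiv ℝ φ w c) z := fun c =>
    dφ1.clm_apply (differentiableAt_const c)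
  have dXX : ∀ c, DifferentiableAt ℝ (fun w => fderiv ℝ (fderiv ℝ φ) w t c) z := fun c =>
    (dφ2.clm_apply (differentiableAt_const t)).clm_apply (differentiableAt_const c)
  have t1 := fderiv_tri (M := fun w => ev (fderiv ℝ g (φ w) (fderiv ℝ φ w t)))
    (X := fun w => fderiv ℝ φ w a) (Y := fun w => fderiv ℝ φ w b) hM1.differentiableAt (dX a) (dX b) s
  have t2 := fderiv_tri (M := fun w => ev (g (φ w)))
    (X := fun w => fderiv ℝ (fderiv ℝ φ) w t a) (Y := fun w => fderiv ℝ φ w b)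
    hM2.differentiableAt (dXX a) (dX b) s
  have t3 := fderiv_tri (M := fun w => ev (g (φ w)))
    (X := fun w => fderiv ℝ φ w a) (Y := fun w => fderiv ℝ (fderiv ℝ φ) w t b)
    hM2.differentiableAt (dX a) (dXX b) s
  have d1 : DifferentiableAt ℝ (fun w => ev (fderiv ℝ g (φ w) (fderiv ℝ φ w t)) (fderiv ℝ φ w a)
      (fderiv ℝ φ w b)) z := (hM1.differentiableAt.clm_apply (dX a)).clm_apply (dX b)
  have d2 : DifferentiableAt ℝ (fun w => ev (g (φ w)) (fderiv ℝ (fderiv ℝ φ) w t a)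
      (fderiv ℝ φ w b)) z := (hM2.differentiableAt.clm_apply (dXX a)).clm_apply (dX b)
  have d3 : DifferentiableAt ℝ (fun w => ev (g (φ w)) (fderiv ℝ φ w a)
      (fderiv ℝ (fderiv ℝ φ) w t b)) z := (hM2.differentiableAt.clm_apply (dX a)).clm_apply (dXX b)
  have hsum : fderiv ℝ (fun w => ev (fderiv ℝ g (φ w) (fderiv ℝ φ w t)) (fderiv ℝ φ w a) (fderiv ℝ φ w b)
      + ev (g (φ w)) (fderiv ℝ (fderiv ℝ φ) w t a) (fderiv ℝ φ w b)
      + ev (g (φ w)) (fderiv ℝ φ w a) (fderiv ℝ (fderiv ℝ φ) w t b)) z s =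
      fderiv ℝ (fun w => ev (fderiv ℝ g (φ w) (fderiv ℝ φ w t)) (fderiv ℝ φ w a) (fderiv ℝ φ w b)) z s
      + fderiv ℝ (fun w => ev (g (φ w)) (fderiv ℝ (fderiv ℝ φ) w t a) (fderiv ℝ φ w b)) z s
      + fderiv ℝ (fun w => ev (g (φ w)) (fderiv ℝ φ w a) (fderiv ℝ (fderiv ℝ φ) w t b)) z s := by
    have := ((d1.hasFDerivAt.add d2.hasFDerivAt).add d3.hasFDerivAt)
    have h := this.fderiv
    exact DFunLike.congr_fun h s
  rw [hsum, t1, t2, t3, hM1.fderiv, hM2.fderiv, fderiv_app dφ1, fderiv_app dφ1, fderiv_app2 dφ2,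
    fderiv_app2 dφ2]
  simp
  ring


theorem dG_ev {x : F'} (hg : DifferentiableAt ℝ g x) (t a b : F') :
    dG (fun x => ev (g x)) x t a b = ev (fderiv ℝ g x t) a b := ev_fderiv ev hg t a b

theorem ddG_ev {x : F'} (hg : ContDiffAt ℝ 2 g x) (s t a b : F') :
    ddG (fun x => ev (g x)) x s t a b = ev (fderiv ℝ (fderiv ℝ g) x s t) a b :=
  ev_fderiv2 ev hg s t a b

theorem contDiff_ev {g : F → E} {z : F} {n : WithTop ℕ∞} (hg : ContDiffAt ℝ n g z) :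
    ContDiffAt ℝ n (fun w => ev (g w)) z := by
  have key : ∀ {H : Type _} [NormedAddCommGroup H] [NormedSpace ℝ H] (e : E →L[ℝ] H),
      ContDiffAt ℝ n (fun w => e (g w)) z := fun e => e.contDiff.contDiffAt.comp z hg
  exact key (H := F' →L[ℝ] F' →L[ℝ] ℝ) ev

theorem contDiff_P {z : F} (hg : ContDiffAt ℝ 2 g (φ z)) (hφ : ContDiffAt ℝ 3 φ z) (a b : F) :
    ContDiffAt ℝ 2 (fun w => ev (g (φ w)) (fderiv ℝ φ w a) (fderiv ℝ φ w b)) z := by
  have hφ1 : ContDiffAt ℝ 2 (fderiv ℝ φ) z := hφ.fderiv_right (m := 2) (by norm_num)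
  have h1 : ContDiffAt ℝ 2 (fun w => g (φ w)) z := hg.comp z (hφ.of_le (by norm_num))
  have h2 := contDiff_ev ev h1
  exact (h2.clm_apply (hφ1.clm_apply contDiffAt_const)).clm_apply (hφ1.clm_apply contDiffAt_const)

end

section
variable {β : F → F →L[ℝ] ℝ}

theorem beta_first {w : F} (hβ : DifferentiableAt ℝ β w) (t a b : F) :
    fderiv ℝ (fun w => β w a * β w b) w t = fderiv ℝ β w t a * β w b + β w a * fderiv ℝ β w t b := by
  have h1 : ∀ c, HasFDerivAt (fun w => β w c) ((fderiv ℝ β w).flip c) w := fun c => by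
    have := hβ.hasFDerivAt.clm_apply (hasFDerivAt_const c w)
    refine this.congr_fderiv ?_
    ext s
    simp
  refine Eq.trans (DFunLike.congr_fun ((h1 a).mul (h1 b)).fderiv t) ?_
  simp
  ring

theorem beta_second {z : F} (hβ : ContDiffAt ℝ 2 β z) (s t a b : F) (ha : β z a = 0)
    (hb : β z b = 0) :
    fderiv ℝ (fun w => fderiv ℝ (fun w => β w a * β w b) w t) z s =
      fderiv ℝ β z t a * fderiv ℝ β z s b + fderiv ℝ β z s a * fderiv ℝ β z t b := by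
  have hβ1 : ContDiffAt ℝ 1 (fderiv ℝ β) z := hβ.fderiv_right (m := 1) (by norm_num)
  have dβ : DifferentiableAt ℝ β z := hβ.differentiableAt (by norm_num)
  have dβ1 : DifferentiableAt ℝ (fderiv ℝ β) z := hβ1.differentiableAt (by norm_num)
  have he : (fun w => fderiv ℝ (fun w => β w a * β w b) w t) =ᶠ[𝓝 z]
      fun w => fderiv ℝ β w t a * β w b + β w a * fderiv ℝ β w t b := by
    filter_upwards [hβ.eventually (by norm_num)] with w hw
    exact beta_first (hw.differentiableAt (by norm_num)) t a b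
  rw [he.fderiv_eq (𝕜 := ℝ)]
  have h1 : ∀ c, HasFDerivAt (fun w => β w c) ((fderiv ℝ β z).flip c) z := fun c => by
    have := dβ.hasFDerivAt.clm_apply (hasFDerivAt_const c z)
    refine this.congr_fderiv ?_
    ext s
    simp
  have h2 : ∀ c, DifferentiableAt ℝ (fun w => fderiv ℝ β w t c) z := fun c =>
    (dβ1.clm_apply (differentiableAt_const t)).clm_apply (differentiableAt_const c)
  have h3 := (((h2 a).hasFDerivAt.mul (h1 b)).add ((h1 a).mul (h2 b).hasFDerivAt)).fderiv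
  have h4 := DFunLike.congr_fun h3 s
  refine Eq.trans h4 ?_
  simp [ha, hb]
  ring

end

/-- the structure of the pulled back metric. -/
theorem dG_gen (ev : E →L[ℝ] F' →L[ℝ] F' →L[ℝ] ℝ) {g : F' → E} {φ : F → F'}
    {G : F → F →L[ℝ] F →L[ℝ] ℝ} {β : F → F →L[ℝ] ℝ} {z : F}
    (hg : ContDiffAt ℝ 2 g (φ z)) (hφ : ContDiffAt ℝ 3 φ z) (hβ : ContDiffAt ℝ 2 β z)
    (h : ∀ᶠ w in 𝓝 z, ∀ a b, G w a b
      = ev (g (φ w)) (fderiv ℝ φ w a) (fderiv ℝ φ w b) + β w a * β w b) (t a b : F) :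
    dG G z t a b = fderiv ℝ (fun w => ev (g (φ w)) (fderiv ℝ φ w a) (fderiv ℝ φ w b)) z t
      + fderiv ℝ (fun w => β w a * β w b) z t := by
  have e : (fun w => G w a b) =ᶠ[𝓝 z] fun w => ev (g (φ w)) (fderiv ℝ φ w a) (fderiv ℝ φ w b)
      + β w a * β w b := h.mono fun w hw => hw a b
  rw [dG, e.fderiv_eq (𝕜 := ℝ)]
  have h1 := (contDiff_P ev hg hφ a b).differentiableAt (by norm_num)
  have h2 : DifferentiableAt ℝ (fun w => β w a * β w b) z := by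
    have dβ : DifferentiableAt ℝ β z := hβ.differentiableAt (by norm_num)
    exact (dβ.clm_apply (differentiableAt_const a)).mul (dβ.clm_apply (differentiableAt_const b))
  exact DFunLike.congr_fun (h1.hasFDerivAt.add h2.hasFDerivAt).fderiv t

theorem ddG_gen (ev : E →L[ℝ] F' →L[ℝ] F' →L[ℝ] ℝ) {g : F' → E} {φ : F → F'}
    {G : F → F →L[ℝ] F →L[ℝ] ℝ} {β : F → F →L[ℝ] ℝ} {z : F}
    (hg : ContDiffAt ℝ 2 g (φ z)) (hφ : ContDiffAt ℝ 3 φ z) (hβ : ContDiffAt ℝ 2 β z)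
    (h : ∀ᶠ w in 𝓝 z, ∀ a b, G w a b
      = ev (g (φ w)) (fderiv ℝ φ w a) (fderiv ℝ φ w b) + β w a * β w b) (s t a b : F) :
    ddG G z s t a b =
      fderiv ℝ (fun w => fderiv ℝ (fun w' => ev (g (φ w')) (fderiv ℝ φ w' a) (fderiv ℝ φ w' b)) w t) z s
      + fderiv ℝ (fun w => fderiv ℝ (fun w => β w a * β w b) w t) z s := by
  have e3 : ∀ᶠ w in 𝓝 z, ContDiffAt ℝ 2 g (φ w) :=
    hφ.continuousAt.eventually (hg.eventually (by norm_num))
  have e : (fun w => dG G w t a b) =ᶠ[𝓝 z] fun w =>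
      fderiv ℝ (fun w => ev (g (φ w)) (fderiv ℝ φ w a) (fderiv ℝ φ w b)) w t
      + fderiv ℝ (fun w => β w a * β w b) w t := by
    filter_upwards [hφ.eventually (by norm_num), hβ.eventually (by norm_num), e3,
      h.eventually_nhds] with w h1 h2 h3 h4
    exact dG_gen ev h3 h1 h2 h4 t a b
  rw [ddG, e.fderiv_eq (𝕜 := ℝ)]
  have h1 : DifferentiableAt ℝ
      (fun w => fderiv ℝ (fun w => ev (g (φ w)) (fderiv ℝ φ w a) (fderiv ℝ φ w b)) w t) z := by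
    have := ((contDiff_P ev hg hφ a b).fderiv_right (m := 1) (by norm_num)).differentiableAt
      (by norm_num)
    exact this.clm_apply (differentiableAt_const t)
  have h2 : DifferentiableAt ℝ (fun w => fderiv ℝ (fun w => β w a * β w b) w t) z := by
    have h3 : ContDiffAt ℝ 2 (fun w => β w a * β w b) z :=
      (hβ.clm_apply contDiffAt_const).mul (hβ.clm_apply contDiffAt_const)
    exact ((h3.fderiv_right (m := 1) (by norm_num)).differentiableAt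
      (by norm_num)).clm_apply (differentiableAt_const t)
  exact DFunLike.congr_fun (h1.hasFDerivAt.add h2.hasFDerivAt).fderiv s


section
variable (ev : E →L[ℝ] F' →L[ℝ] F' →L[ℝ] ℝ) {g : F' → E} {φ : F → F'}
    {G : F → F →L[ℝ] F →L[ℝ] ℝ} {β : F → F →L[ℝ] ℝ} {z : F}

theorem D2_symm (hφ : ContDiffAt ℝ 3 φ z) (s t : F) :
    fderiv ℝ (fderiv ℝ φ) z s t = fderiv ℝ (fderiv ℝ φ) z t s :=
  (hφ.isSymmSndFDerivAt (by simp; norm_num)) s t

theorem D3_symm1 (hφ : ContDiffAt ℝ 3 φ z) (s t a : F) :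
    fderiv ℝ (fderiv ℝ (fderiv ℝ φ)) z s t a = fderiv ℝ (fderiv ℝ (fderiv ℝ φ)) z t s a := by
  have hφ1 : ContDiffAt ℝ 2 (fderiv ℝ φ) z := hφ.fderiv_right (m := 2) (by norm_num)
  rw [(hφ1.isSymmSndFDerivAt (by simp)) s t]

theorem D3_symm2 (hφ : ContDiffAt ℝ 3 φ z) (s t a : F) :
    fderiv ℝ (fderiv ℝ (fderiv ℝ φ)) z s t a = fderiv ℝ (fderiv ℝ (fderiv ℝ φ)) z s a t := by
  have hφ1 : ContDiffAt ℝ 2 (fderiv ℝ φ) z := hφ.fderiv_right (m := 2) (by norm_num)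
  have hφ2 : ContDiffAt ℝ 1 (fderiv ℝ (fderiv ℝ φ)) z := hφ1.fderiv_right (m := 1) (by norm_num)
  have dφ2 : DifferentiableAt ℝ (fderiv ℝ (fderiv ℝ φ)) z := hφ2.differentiableAt (by norm_num)
  rw [← fderiv_app2 dφ2, ← fderiv_app2 dφ2]
  have e : (fun w => fderiv ℝ (fderiv ℝ φ) w t a) =ᶠ[𝓝 z] fun w => fderiv ℝ (fderiv ℝ φ) w a t := by
    filter_upwards [hφ.eventually (by norm_num)] with w hw
    exact D2_symm hw t a
  rw [e.fderiv_eq (𝕜 := ℝ)]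

theorem chr_gen [FiniteDimensional ℝ F'] (hg : ContDiffAt ℝ 2 g (φ z)) (hφ : ContDiffAt ℝ 3 φ z)
    (hβ : ContDiffAt ℝ 2 β z) (hG' : MetAt (fun x => ev (g x)) (φ z)) (hG : MetAt G z)
    (h : ∀ᶠ w in 𝓝 z, ∀ a b, G w a b
      = ev (g (φ w)) (fderiv ℝ φ w a) (fderiv ℝ φ w b) + β w a * β w b) {a b : F}
    (ha : β z a = 0) (hb : β z b = 0) (w : F) :
    chr G z a b w = ev (g (φ z)) (Gam (fun x => ev (g x)) (φ z) (fderiv ℝ φ z a) (fderiv ℝ φ z b)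
      + fderiv ℝ (fderiv ℝ φ) z a b) (fderiv ℝ φ z w)
      + (1/2) * (fderiv ℝ β z a b + fderiv ℝ β z b a) * β z w := by
  have hφ1 : ContDiffAt ℝ 2 (fderiv ℝ φ) z := hφ.fderiv_right (m := 2) (by norm_num)
  have dφ : DifferentiableAt ℝ φ z := hφ.differentiableAt (by norm_num)
  have dφ1 : DifferentiableAt ℝ (fderiv ℝ φ) z := hφ1.differentiableAt (by norm_num)
  have dg : DifferentiableAt ℝ g (φ z) := hg.differentiableAt (by norm_num)
  have dβ : DifferentiableAt ℝ β z := hβ.differentiableAt (by norm_num)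
  have sy : ∀ p q, ev (g (φ z)) p q = ev (g (φ z)) q p := fun p q => hG'.symm.self_of_nhds p q
  have h1 := G_Gam hG' (fderiv ℝ φ z a) (fderiv ℝ φ z b) (fderiv ℝ φ z w)
  rw [chr_apply hG'.smooth, dG_ev ev dg, dG_ev ev dg, dG_ev ev dg] at h1
  rw [map_add, _root_.add_apply]
  erw [h1]
  rw [chr_apply hG.smooth, dG_gen ev hg hφ hβ h, dG_gen ev hg hφ hβ h, dG_gen ev hg hφ hβ h,
    beta_first dβ, beta_first dβ, beta_first dβ, first ev dg dφ dφ1, first ev dg dφ dφ1,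
    first ev dg dφ dφ1, D2_symm hφ b a, D2_symm hφ w a, D2_symm hφ w b, ha, hb,
    sy (fderiv ℝ φ z b) (fderiv ℝ (fderiv ℝ φ) z a w)]
  ring


theorem num_gen [FiniteDimensional ℝ F] [FiniteDimensional ℝ F'] (hg : ContDiffAt ℝ 2 g (φ z))
    (hφ : ContDiffAt ℝ 3 φ z)
    (hβ : ContDiffAt ℝ 2 β z) (hG' : MetAt (fun x => ev (g x)) (φ z)) (hG : MetAt G z)
    (h : ∀ᶠ w in 𝓝 z, ∀ a b, G w a b
      = ev (g (φ w)) (fderiv ℝ φ w a) (fderiv ℝ φ w b) + β w a * β w b) {u v : F}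
    (hu : β z u = 0) (hv : β z v = 0)
    (hs : ∀ a b, ∃ c, fderiv ℝ φ z c = Gam (fun x => ev (g x)) (φ z) (fderiv ℝ φ z a)
      (fderiv ℝ φ z b) + fderiv ℝ (fderiv ℝ φ) z a b ∧
      β z c = (1/2) * (fderiv ℝ β z a b + fderiv ℝ β z b a)) :
    num G z u v = num (fun x => ev (g x)) (φ z) (fderiv ℝ φ z u) (fderiv ℝ φ z v)
      - (3/4) * (fderiv ℝ β z u v - fderiv ℝ β z v u) ^ 2 := by
  have dg : DifferentiableAt ℝ g (φ z) := hg.differentiableAt (by norm_num)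
  have sy : ∀ p q, ev (g (φ z)) p q = ev (g (φ z)) q p := fun p q => hG'.symm.self_of_nhds p q
  have sy1 : ∀ t p q, ev (fderiv ℝ g (φ z) t) p q = ev (fderiv ℝ g (φ z) t) q p := fun t p q => by
    have := dG_symm hG' t p q
    rwa [dG_ev ev dg, dG_ev ev dg] at this
  have hz := h.self_of_nhds
  -- Christoffel part
  have key : ∀ a b, β z a = 0 → β z b = 0 → fderiv ℝ φ z (Gam G z a b) =
      Gam (fun x => ev (g x)) (φ z) (fderiv ℝ φ z a) (fderiv ℝ φ z b)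
        + fderiv ℝ (fderiv ℝ φ) z a b ∧
      β z (Gam G z a b) = (1/2) * (fderiv ℝ β z a b + fderiv ℝ β z b a) := by
    intro a b ha hb
    obtain ⟨c, hc1, hc2⟩ := hs a b
    have : Gam G z a b = c := by
      refine Gam_unique hG fun w => ?_
      rw [chr_gen ev hg hφ hβ hG' hG h ha hb, hz, hc1, hc2]
    rw [this]
    exact ⟨hc1, hc2⟩
  obtain ⟨a1, a2⟩ := key u v hu hv
  obtain ⟨b1, b2⟩ := key v v hv hv
  have c1 := chr_gen ev hg hφ hβ hG' hG h hu hv (Gam G z u v)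
  have c2 := chr_gen ev hg hφ hβ hG' hG h hu hu (Gam G z v v)
  rw [a1, a2] at c1
  rw [b1, b2] at c2
  -- the terms of the target
  have g1 : ∀ a b c, ev (g (φ z)) (Gam (fun x => ev (g x)) (φ z) a b) c
      = (1/2) * (ev (fderiv ℝ g (φ z) a) b c + ev (fderiv ℝ g (φ z) b) a c
        - ev (fderiv ℝ g (φ z) c) a b) := fun a b c => by
    have := G_Gam hG' a b c
    rw [chr_apply hG'.smooth, dG_ev ev dg, dG_ev ev dg, dG_ev ev dg] at this
    exact this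
  have g2 : ∀ a b c, chr (fun x => ev (g x)) (φ z) a b c
      = ev (g (φ z)) (Gam (fun x => ev (g x)) (φ z) a b) c := fun a b c => (G_Gam hG' a b c).symm
  unfold num
  rw [c1, c2, g2, g2, ddG_gen ev hg hφ hβ h, ddG_gen ev hg hφ hβ h, ddG_gen ev hg hφ hβ h,
    beta_second hβ _ _ _ _ hu hv, beta_second hβ _ _ _ _ hv hv, beta_second hβ _ _ _ _ hu hu,
    second ev hg hφ, second ev hg hφ, second ev hg hφ, ddG_ev ev hg, ddG_ev ev hg, ddG_ev ev hg]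
  rw [D2_symm hφ v u, D3_symm2 hφ u v u, D3_symm2 hφ v v u, D3_symm1 hφ v u v]
  simp only [map_add, _root_.add_apply]
  have e2 := g1 (fderiv ℝ φ z u) (fderiv ℝ φ z v) (fderiv ℝ (fderiv ℝ φ) z u v)
  have e4 := g1 (fderiv ℝ φ z v) (fderiv ℝ φ z v) (fderiv ℝ (fderiv ℝ φ) z u u)
  have e5 := g1 (fderiv ℝ φ z u) (fderiv ℝ φ z u) (fderiv ℝ (fderiv ℝ φ) z v v)
  linear_combination 2 * e2 - e5 - e4
    - sy (fderiv ℝ (fderiv ℝ φ) z u u)
        (Gam (fun x => ev (g x)) (φ z) (fderiv ℝ φ z v) (fderiv ℝ φ z v))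
    + sy (fderiv ℝ (fderiv ℝ φ) z u v)
        (Gam (fun x => ev (g x)) (φ z) (fderiv ℝ φ z u) (fderiv ℝ φ z v))
    + (1/2) * sy (fderiv ℝ (fderiv ℝ (fderiv ℝ φ)) z u u v) (fderiv ℝ φ z v)
    + (1/2) * sy (fderiv ℝ φ z u) (fderiv ℝ (fderiv ℝ (fderiv ℝ φ)) z u v v)
    + sy1 (fderiv ℝ φ z v) (fderiv ℝ (fderiv ℝ φ) z u u) (fderiv ℝ φ z v)
    - sy1 (fderiv ℝ φ z v) (fderiv ℝ (fderiv ℝ φ) z u v) (fderiv ℝ φ z u)

end

end

theorem num_gen2 {F F' E : Type*} [NormedAddCommGroup F] [NormedSpace ℝ F] [FiniteDimensional ℝ F]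
    [NormedAddCommGroup F'] [NormedSpace ℝ F'] [FiniteDimensional ℝ F']
    [NormedAddCommGroup E] [NormedSpace ℝ E]
    {G : F → F →L[ℝ] F →L[ℝ] ℝ} {G' : F' → F' →L[ℝ] F' →L[ℝ] ℝ} {φ : F → F'} {z : F}
    {β : F → F →L[ℝ] ℝ} (g : F' → E) (ev : E →L[ℝ] F' →L[ℝ] F' →L[ℝ] ℝ)
    (hg : ContDiffAt ℝ 2 g (φ z)) (hev : ∀ x, ev (g x) = G' x)
    (hφ : ContDiffAt ℝ 3 φ z)
    (hβ : ContDiffAt ℝ 2 β z) (hG' : MetAt G' (φ z)) (hG : MetAt G z)
    (h : ∀ᶠ w in 𝓝 z, ∀ a b, G w a b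
      = G' (φ w) (fderiv ℝ φ w a) (fderiv ℝ φ w b) + β w a * β w b) {u v : F}
    (hu : β z u = 0) (hv : β z v = 0)
    (hs : ∀ a b, ∃ c, fderiv ℝ φ z c = Gam G' (φ z) (fderiv ℝ φ z a)
      (fderiv ℝ φ z b) + fderiv ℝ (fderiv ℝ φ) z a b ∧
      β z c = (1/2) * (fderiv ℝ β z a b + fderiv ℝ β z b a)) :
    num G z u v = num G' (φ z) (fderiv ℝ φ z u) (fderiv ℝ φ z v)
      - (3/4) * (fderiv ℝ β z u v - fderiv ℝ β z v u) ^ 2 := by
  obtain rfl : G' = fun x => ev (g x) := funext fun x => (hev x).symm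
  exact num_gen ev hg hφ hβ hG' hG h hu hv hs

noncomputable def idd (F' : Type*) [NormedAddCommGroup F'] [NormedSpace ℝ F'] :
    @ContinuousLinearMap ℝ ℝ _ _ (RingHom.id ℝ) (F' →L[ℝ] F' →L[ℝ] ℝ) PseudoMetricSpace.toUniformSpace.toTopologicalSpace _
      (F' →L[ℝ] F' →L[ℝ] ℝ) ContinuousLinearMap.topologicalSpace _ _ _ :=
  ContinuousLinearMap.id ℝ (F' →L[ℝ] F' →L[ℝ] ℝ)

theorem num_gen3 {F F' : Type*} [NormedAddCommGroup F] [NormedSpace ℝ F] [FiniteDimensional ℝ F]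
    [NormedAddCommGroup F'] [NormedSpace ℝ F'] [FiniteDimensional ℝ F']
    {G : F → F →L[ℝ] F →L[ℝ] ℝ} {G' : F' → F' →L[ℝ] F' →L[ℝ] ℝ} {φ : F → F'} {z : F}
    {β : F → F →L[ℝ] ℝ} 
    (hφ : ContDiffAt ℝ 3 φ z)
    (hβ : ContDiffAt ℝ 2 β z) (hG' : MetAt G' (φ z)) (hG : MetAt G z)
    (h : ∀ᶠ w in 𝓝 z, ∀ a b, G w a b
      = G' (φ w) (fderiv ℝ φ w a) (fderiv ℝ φ w b) + β w a * β w b) {u v : F}
    (hu : β z u = 0) (hv : β z v = 0)
    (hs : ∀ a b, ∃ c, fderiv ℝ φ z c = Gam G' (φ z) (fderiv ℝ φ z a)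
      (fderiv ℝ φ z b) + fderiv ℝ (fderiv ℝ φ) z a b ∧
      β z c = (1/2) * (fderiv ℝ β z a b + fderiv ℝ β z b a)) :
    num G z u v = num G' (φ z) (fderiv ℝ φ z u) (fderiv ℝ φ z v)
      - (3/4) * (fderiv ℝ β z u v - fderiv ℝ β z v u) ^ 2 := by
  have hev : ∀ x, idd F' (G' x) = G' x := fun x => rfl
  have hg : ContDiffAt ℝ 2 G' (φ z) := hG'.smooth
  refine num_gen2 (E := F' →L[ℝ] F' →L[ℝ] ℝ) G' (idd F') hg hev hφ hβ hG' hG h hu hv hs

/-- **Naturality of the curvature numerator.** -/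
theorem num_pullback {F F' : Type*} [NormedAddCommGroup F] [NormedSpace ℝ F] [FiniteDimensional ℝ F]
    [NormedAddCommGroup F'] [NormedSpace ℝ F'] [FiniteDimensional ℝ F']
    {G : F → F →L[ℝ] F →L[ℝ] ℝ} {G' : F' → F' →L[ℝ] F' →L[ℝ] ℝ} {φ : F → F'} {z : F}
    (hφ : ContDiffAt ℝ 3 φ z) (hG' : MetAt G' (φ z)) (hG : MetAt G z)
    (hs : Function.Surjective (fderiv ℝ φ z))
    (h : ∀ᶠ w in 𝓝 z, ∀ a b, G w a b = G' (φ w) (fderiv ℝ φ w a) (fderiv ℝ φ w b)) (u v : F) :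
    num G z u v = num G' (φ z) (fderiv ℝ φ z u) (fderiv ℝ φ z v) := by
  have h1 := num_gen3 (β := fun _ => (0 : F →L[ℝ] ℝ)) hφ contDiffAt_const hG' hG
    (h.mono fun w hw a b => by rw [hw a b]; simp) (u := u) (v := v) rfl rfl
    (fun a b => by
      obtain ⟨c, hc⟩ := hs (Gam G' (φ z) (fderiv ℝ φ z a) (fderiv ℝ φ z b)
        + fderiv ℝ (fderiv ℝ φ) z a b)
      exact ⟨c, hc, by simp⟩)
  rw [h1]
  simp

/-- **O'Neill's formula for a Riemannian submersion with one-dimensional fibres.** -/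
theorem num_submersion {F F' : Type*} [NormedAddCommGroup F] [NormedSpace ℝ F] [FiniteDimensional ℝ F]
    [NormedAddCommGroup F'] [NormedSpace ℝ F'] [FiniteDimensional ℝ F']
    {G : F → F →L[ℝ] F →L[ℝ] ℝ} {G' : F' → F' →L[ℝ] F' →L[ℝ] ℝ} {φ : F → F'} {z : F}
    {β : F → F →L[ℝ] ℝ}
    (hφ : ContDiffAt ℝ 3 φ z) (hβ : ContDiffAt ℝ 2 β z) (hG' : MetAt G' (φ z)) (hG : MetAt G z)
    (hs : ∀ (a' : F') (s : ℝ), ∃ a, fderiv ℝ φ z a = a' ∧ β z a = s)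
    (h : ∀ᶠ w in 𝓝 z, ∀ a b, G w a b
      = G' (φ w) (fderiv ℝ φ w a) (fderiv ℝ φ w b) + β w a * β w b)
    {u v : F} (hu : β z u = 0) (hv : β z v = 0) :
    num G z u v = num G' (φ z) (fderiv ℝ φ z u) (fderiv ℝ φ z v)
      - (3/4) * (fderiv ℝ β z u v - fderiv ℝ β z v u) ^ 2 :=
  num_gen3 hφ hβ hG' hG h hu hv fun a b => hs _ _

end Pool.Agent.Helper88.HP
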